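import Mathlib

set_option autoImplicit false

/-!
# Labelled trees: the configuration space
-/

noncomputable section

namespace Pool.Agent.H71.PP

/-- labels of half-edges: `0, 1, 2` are of one type, `3, 4` of the other type -/
abbrev L := Fin 5
/-- a branch -/
abbrev Br := List (Fin 4) → L
/-- five branches -/
abbrev D := L → Br

/-- the branch with root label `l` and subbranches `f` -/
def node (l : L) (f : Fin 4 → Br) : Br
  | [] => l
  | i :: w => f i w

/-- subbranch -/
def sub (i : Fin 4) (b : Br) : Br := fun w => b (i :: w)

@[simp] theorem node_nil (l : L) (f : Fin 4 → Br) : node l f [] = l := rfl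
@[simp] theorem node_cons (l : L) (f : Fin 4 → Br) (i : Fin 4) (w : List (Fin 4)) :
    node l f (i :: w) = f i w := rfl
@[simp] theorem sub_node (l : L) (f : Fin 4 → Br) (i : Fin 4) : sub i (node l f) = f i := rfl
theorem node_sub (b : Br) : node (b []) (fun i => sub i b) = b := by
  funext w
  cases w <;> rfl

/-- rerooting across the half-edge `a`, when the label on the other side is `b` -/
def rr (d : D) (a b : L) : D :=
  Fin.insertNth (α := fun _ => Br) b (node a (fun i => d (a.succAbove i))) (fun i => sub i (d a))

@[simp] theorem rr_same (d : D) (a b : L) : rr d a b b = node a (fun i => d (a.succAbove i)) := by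
  unfold rr
  exact Fin.insertNth_apply_same (α := fun _ => Br) _ _ _

@[simp] theorem rr_succAbove (d : D) (a b : L) (i : Fin 4) :
    rr d a b (b.succAbove i) = sub i (d a) := by
  unfold rr
  exact Fin.insertNth_apply_succAbove (α := fun _ => Br) _ _ _ _

theorem D_ext {d d' : D} (b : L) (h : d b = d' b)
    (h' : ∀ i, d (b.succAbove i) = d' (b.succAbove i)) : d = d' := by
  funext c
  rcases Fin.eq_self_or_eq_succAbove b c with rfl | ⟨i, rfl⟩
  · exact h
  · exact h' i

theorem rr_rr (d : D) (a b : L) (h : d a [] = b) : rr (rr d a b) b a = d := by
  refine D_ext a ?_ fun i => ?_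
  · rw [rr_same]
    simp only [rr_succAbove]
    rw [← h]
    exact node_sub _
  · rw [rr_succAbove, rr_same, sub_node]

/-- opposite types -/
def compat (a b : L) : Prop := (a < 3) ↔ ¬ (b < 3)

instance (a b : L) : Decidable (compat a b) := by unfold compat; infer_instance

theorem compat_symm {a b : L} (h : compat a b) : compat b a := by
  unfold compat at *
  tauto

/-- correct a label -/
def fix (a l : L) : L := if compat a l then l else if a < 3 then 3 else 0

theorem fix_compat (a l : L) : compat a (fix a l) := by
  revert a l
  decide

theorem fix_of_compat {a l : L} (h : compat a l) : fix a l = l := by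
  unfold fix
  rw [if_pos h]

/-- correct all labels of a branch -/
def canB : L → Br → Br
  | a, b, [] => fix a (b [])
  | a, b, i :: w => canB ((fix a (b [])).succAbove i) (sub i b) w

theorem canB_nil (a : L) (b : Br) : canB a b [] = fix a (b []) := by
  rw [canB]

theorem sub_canB (a : L) (b : Br) (i : Fin 4) :
    sub i (canB a b) = canB ((fix a (b [])).succAbove i) (sub i b) := by
  funext w
  unfold sub
  rw [canB]
  rfl

theorem canB_eq (a : L) (b : Br) :
    canB a b = node (fix a (b [])) (fun i => canB ((fix a (b [])).succAbove i) (sub i b)) := by
  rw [← node_sub (canB a b)]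
  simp only [sub_canB, canB_nil]

theorem canB_canB (a : L) (b : Br) : canB a (canB a b) = canB a b := by
  funext w
  induction w generalizing a b with
  | nil => rw [canB_nil, canB_nil, fix_of_compat (fix_compat _ _)]
  | cons i w ih =>
    change sub i (canB a (canB a b)) w = sub i (canB a b) w
    rw [sub_canB, sub_canB, canB_nil, fix_of_compat (fix_compat _ _)]
    exact ih _ _

/-- correct all labels -/
def can (d : D) : D := fun a => canB a (d a)

theorem can_can (d : D) : can (can d) = can d := funext fun a => canB_canB a (d a)

theorem rr_can {d : D} {a b : L} (hc : compat a b) (h : d a [] = b) :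
    rr (can d) a b = can (rr d a b) := by
  refine D_ext b ?_ fun i => ?_
  · unfold can
    rw [rr_same, rr_same, canB_eq b, node_nil, fix_of_compat (compat_symm hc)]
    rfl
  · rw [rr_succAbove]
    unfold can
    rw [rr_succAbove, sub_canB, h, fix_of_compat hc]

/-- The configuration space. -/
def X : Type := {d : D // can d = d}

/-- the configuration of a family of branches -/
def toX (d : D) : X := ⟨can d, can_can d⟩

/-- the label on the other side of the half-edge `a` -/
def back (x : X) (a : L) : L := x.1 a []

theorem back_compat (x : X) (a : L) : compat a (back x a) := by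
  have h : back x a = fix a (x.1 a []) := by
    conv_lhs => unfold back; rw [← x.2]
    exact canB_nil _ _
  rw [h]
  exact fix_compat _ _

/-- the neighbour across the half-edge `a` -/
def nbr (x : X) (a : L) : X := ⟨rr x.1 a (back x a), by
  rw [← rr_can (back_compat x a) rfl, x.2]⟩

theorem nbr_nbr (x : X) (a : L) : nbr (nbr x a) (back x a) = x := by
  apply Subtype.ext
  change rr (rr x.1 a (back x a)) (back x a) (rr x.1 a (back x a) (back x a) []) = x.1
  rw [rr_same, node_nil]
  exact rr_rr _ _ _ rfl

theorem back_nbr (x : X) (a : L) : back (nbr x a) (back x a) = a := by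
  change rr x.1 a (back x a) (back x a) [] = a
  rw [rr_same, node_nil]

theorem back_toX {d : D} {a b : L} (hc : compat a b) (h : d a [] = b) : back (toX d) a = b := by
  change canB a (d a) [] = b
  rw [canB_nil, h, fix_of_compat hc]

theorem nbr_toX {d : D} {a b : L} (hc : compat a b) (h : d a [] = b) :
    nbr (toX d) a = toX (rr d a b) := by
  apply Subtype.ext
  change rr (can d) a (back (toX d) a) = can (rr d a b)
  rw [back_toX hc h, rr_can hc h]

/-- crossing an edge -/
def tau (y : X × L) : X × L := (nbr y.1 y.2, back y.1 y.2)

theorem tau_tau (y : X × L) : tau (tau y) = y := by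
  unfold tau
  exact Prod.ext (nbr_nbr _ _) (back_nbr _ _)

theorem tau_inj {y z : X × L} (h : tau y = tau z) : y = z := by
  rw [← tau_tau y, h, tau_tau]

theorem tau_compat (y : X × L) : compat y.2 (tau y).2 := back_compat _ _

/-! ### Measurability -/

instance : MeasurableSpace X := Subtype.instMeasurableSpace

theorem measurable_coord (a : L) (w : List (Fin 4)) : Measurable (fun d : D => d a w) :=
  (measurable_pi_apply w).comp (measurable_pi_apply a)

theorem measurable_D {α : Type*} [MeasurableSpace α] {f : α → D}
    (h : ∀ a w, Measurable (fun x => f x a w)) : Measurable f :=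
  measurable_pi_iff.2 fun a => measurable_pi_iff.2 fun w => h a w

theorem measurable_sub (i : Fin 4) : Measurable (sub i) :=
  measurable_pi_iff.2 fun w => measurable_pi_apply (i :: w)

theorem measurable_fix (a : L) : Measurable (fix a) := measurable_from_top

theorem measurable_canB (w : List (Fin 4)) : ∀ a : L, Measurable (fun b : Br => canB a b w) := by
  induction w with
  | nil =>
    intro a
    simp only [canB_nil]
    exact (measurable_fix a).comp (measurable_pi_apply _)
  | cons i w ih =>
    intro a
    have h1 : Measurable (fun p : Br × L => canB (p.2.succAbove i) p.1 w) :=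
      measurable_from_prod_countable_left fun c => ih (c.succAbove i)
    have h2 : Measurable (fun b : Br => (sub i b, fix a (b []))) :=
      (measurable_sub i).prodMk ((measurable_fix a).comp (measurable_pi_apply _))
    exact h1.comp h2

theorem measurable_can : Measurable can :=
  measurable_D fun a w => (measurable_canB w a).comp (measurable_pi_apply a)

theorem measurable_toX : Measurable toX := measurable_can.subtype_mk

theorem measurable_back (a : L) : Measurable (fun x : X => back x a) :=
  (measurable_coord a []).comp measurable_subtype_coe

theorem measurable_rr (a b : L) : Measurable (fun d : D => rr d a b) := by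
  refine measurable_D fun c w => ?_
  rcases Fin.eq_self_or_eq_succAbove b c with rfl | ⟨i, rfl⟩
  · simp only [rr_same]
    cases w with
    | nil => simp only [node_nil]; exact measurable_const
    | cons i w => simp only [node_cons]; exact measurable_coord _ _
  · simp only [rr_succAbove]
    exact measurable_coord _ _

theorem measurable_nbr (a : L) : Measurable (fun x : X => nbr x a) := by
  have h1 : Measurable (fun p : D × L => rr p.1 a p.2) :=
    measurable_from_prod_countable_left fun c => measurable_rr a c
  have h2 : Measurable (fun x : X => ((x.1 : D), back x a)) :=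
    measurable_subtype_coe.prodMk (measurable_back a)
  exact (h1.comp h2).subtype_mk

theorem measurable_tau : Measurable tau := by
  refine measurable_from_prod_countable_left fun a => ?_
  exact (measurable_nbr a).prodMk (measurable_back a)

theorem measurableSet_X : MeasurableSet {d : D | can d = d} :=
  measurableSet_eq_fun measurable_can measurable_id

instance : StandardBorelSpace X := measurableSet_X.standardBorel

end Pool.Agent.H71.PP
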