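import Pool.Agent.H71.PP.Config

set_option autoImplicit false

/-!
# Counting units travelling through a configuration
-/

noncomputable section

namespace Pool.Agent.H71.PP

/-- walking along labels -/
def walk : X → List L → X
  | x, [] => x
  | x, a :: l => walk (nbr x a) l

theorem walk_append (x : X) (l m : List L) : walk x (l ++ m) = walk (walk x l) m := by
  induction l generalizing x with
  | nil => rfl
  | cons a l ih => exact ih (nbr x a)

/-- The data of an injection of two copies of `X` into `X` by bounded walks. -/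
structure Flow where
  g : X → Fin 2 → List L
  R : ℕ
  meas : ∀ k l, MeasurableSet {x | g x k = l}
  len_le : ∀ x k, (g x k).length ≤ R
  inj : ∀ x k y m, walk x (g x k) = walk y (g y m) → x = y ∧ k = m

/-- shift of a test function -/
def hb (b : L) (h : List L → ℕ) : List L → ℕ
  | [] => 0
  | c :: l => if c = b then h l else 0

/-- test function: first label `a`, then `t` more -/
def ind (t : ℕ) (a : L) : List L → ℕ
  | [] => 0
  | c :: l => if c = a ∧ l.length = t then 1 else 0

/-- test function: length `t` -/
def len (t : ℕ) (l : List L) : ℕ := if l.length = t then 1 else 0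

/-- test function: equality with `u` -/
def eqt (u : List L) (l : List L) : ℕ := if l = u then 1 else 0

theorem hb_nil (b : L) (h : List L → ℕ) : hb b h [] = 0 := rfl
theorem hb_cons (b : L) (h : List L → ℕ) (c : L) (l : List L) :
    hb b h (c :: l) = if c = b then h l else 0 := rfl
theorem ind_nil (t : ℕ) (a : L) : ind t a [] = 0 := rfl
theorem ind_cons (t : ℕ) (a c : L) (l : List L) :
    ind t a (c :: l) = if c = a ∧ l.length = t then 1 else 0 := rfl

theorem hb_len (b : L) (t : ℕ) : hb b (len t) = ind t b := by
  funext l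
  cases l with
  | nil => rfl
  | cons c l =>
    unfold hb len ind
    by_cases h : c = b <;> simp [h]

theorem sum_ind (t : ℕ) : (fun l => ∑ a, ind t a l) = len (t + 1) := by
  funext l
  cases l with
  | nil => simp [ind, len]
  | cons c l =>
    unfold ind len
    by_cases h : l.length = t
    · simp [h]
    · simp [h]

theorem hb_eqt (b : L) (u : List L) : hb b (eqt u) = eqt (b :: u) := by
  funext l
  cases l with
  | nil => simp [hb, eqt]
  | cons c l =>
    unfold hb eqt
    by_cases h : c = b <;> simp [h]

namespace Flow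

variable (F : Flow)

/-- number of units at `x`, coming from distance at most `n`, weighted by `h` of the remaining
walk -/
def Q : ℕ → (List L → ℕ) → X → ℕ
  | 0, h, x => ∑ k, h (F.g x k)
  | n + 1, h, x => ∑ k, h (F.g x k) + ∑ a, Q n (hb (back x a) h) (nbr x a)

theorem Q_zero (h : List L → ℕ) (x : X) : F.Q 0 h x = ∑ k, h (F.g x k) := by rw [Q]
theorem Q_succ (n : ℕ) (h : List L → ℕ) (x : X) :
    F.Q (n + 1) h x = ∑ k, h (F.g x k) + ∑ a, F.Q n (hb (back x a) h) (nbr x a) := by rw [Q]

theorem Q_stab (n : ℕ) : ∀ (h : List L → ℕ) (x : X), (∀ l, l.length + n + 1 ≤ F.R → h l = 0) →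
    F.Q (n + 1) h x = F.Q n h x := by
  induction n with
  | zero =>
    intro h x hh
    rw [Q_succ, Q_zero]
    have : ∑ a, F.Q 0 (hb (back x a) h) (nbr x a) = 0 := by
      refine Finset.sum_eq_zero fun a _ => ?_
      rw [Q_zero]
      refine Finset.sum_eq_zero fun k _ => ?_
      have hl := F.len_le (nbr x a) k
      generalize F.g (nbr x a) k = l at hl
      cases l with
      | nil => rfl
      | cons c l =>
        rw [hb_cons]
        rw [List.length_cons] at hl
        rw [hh l (by omega)]
        simp
    rw [this, add_zero]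
  | succ n ih =>
    intro h x hh
    rw [Q_succ F (n + 1), Q_succ F n]
    congr 1
    refine Finset.sum_congr rfl fun a _ => ih _ _ fun l hl => ?_
    cases l with
    | nil => rfl
    | cons c l =>
      rw [hb_cons]
      rw [List.length_cons] at hl
      rw [hh l (by omega)]
      simp

theorem Q_vanish (n : ℕ) : ∀ (h : List L → ℕ) (x : X), (∀ l, l.length ≤ F.R → h l = 0) →
    F.Q n h x = 0 := by
  induction n with
  | zero =>
    intro h x hh
    rw [Q_zero]
    exact Finset.sum_eq_zero fun k _ => hh _ (F.len_le x k)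
  | succ n ih =>
    intro h x hh
    rw [Q_succ]
    have h1 : ∑ k, h (F.g x k) = 0 := Finset.sum_eq_zero fun k _ => hh _ (F.len_le x k)
    have h2 : ∑ a, F.Q n (hb (back x a) h) (nbr x a) = 0 := by
      refine Finset.sum_eq_zero fun a _ => ih _ _ fun l hl => ?_
      cases l with
      | nil => rfl
      | cons c l =>
        rw [hb_cons]
        rw [List.length_cons] at hl
        rw [hh l (by omega)]
        simp
    rw [h1, h2]

theorem hb_sum (b : L) (f : L → List L → ℕ) :
    hb b (fun l => ∑ a, f a l) = fun l => ∑ a, hb b (f a) l := by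
  funext l
  cases l with
  | nil => simp [hb]
  | cons c l =>
    unfold hb
    by_cases h : c = b <;> simp [h]

theorem Q_sum (n : ℕ) : ∀ (f : L → List L → ℕ) (x : X),
    F.Q n (fun l => ∑ a, f a l) x = ∑ a, F.Q n (f a) x := by
  induction n with
  | zero =>
    intro f x
    simp only [Q_zero]
    exact Finset.sum_comm
  | succ n ih =>
    intro f x
    simp only [Q_succ, hb_sum, ih, Finset.sum_add_distrib]
    congr 1
    · exact Finset.sum_comm
    · exact Finset.sum_comm

/-- an explicit bound -/
def bd : ℕ → ℕ
  | 0 => 2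
  | n + 1 => 2 + 5 * bd n

theorem Q_le (n : ℕ) : ∀ (h : List L → ℕ) (x : X), (∀ l, h l ≤ 1) → F.Q n h x ≤ bd n := by
  induction n with
  | zero =>
    intro h x hh
    rw [Q_zero, bd]
    calc ∑ k, h (F.g x k) ≤ ∑ _k : Fin 2, 1 := Finset.sum_le_sum fun k _ => hh _
      _ = 2 := by simp
  | succ n ih =>
    intro h x hh
    rw [Q_succ, bd]
    refine Nat.add_le_add ?_ ?_
    · calc ∑ k, h (F.g x k) ≤ ∑ _k : Fin 2, 1 := Finset.sum_le_sum fun k _ => hh _
        _ = 2 := by simp
    · calc ∑ a, F.Q n (hb (back x a) h) (nbr x a) ≤ ∑ _a : L, bd n :=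
          Finset.sum_le_sum fun a _ => ih _ _ fun l => by
            cases l with
            | nil => simp [hb]
            | cons c l =>
              rw [hb_cons]
              split_ifs
              · exact hh l
              · omega
        _ = 5 * bd n := by simp

theorem Q_eqt (n : ℕ) : ∀ (u : List L) (x : X), F.Q n (eqt u) x ≤ 1 ∧
    (F.Q n (eqt u) x ≠ 0 → ∃ z k v, F.g z k = v ++ u ∧ walk z v = x) := by
  induction n with
  | zero =>
    intro u x
    rw [Q_zero]
    constructor
    · rw [Fin.sum_univ_two]
      unfold eqt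
      by_cases h0 : F.g x 0 = u
      · by_cases h1 : F.g x 1 = u
        · have := (F.inj x 0 x 1 (by rw [h0, h1])).2
          simp at this
        · simp [h0, h1]
      · by_cases h1 : F.g x 1 = u <;> simp [h0, h1]
    · intro h
      obtain ⟨k, _, hk⟩ := Finset.exists_ne_zero_of_sum_ne_zero h
      unfold eqt at hk
      refine ⟨x, k, [], ?_, rfl⟩
      by_contra hcon
      exact hk (if_neg (by simpa using hcon))
  | succ n ih =>
    intro u x
    rw [Q_succ]
    simp only [hb_eqt]
    -- the terms
    have key1 : ∀ k, eqt u (F.g x k) ≠ 0 → F.g x k = u := by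
      intro k hk
      unfold eqt at hk
      by_contra hcon
      exact hk (if_neg hcon)
    have key2 : ∀ a, F.Q n (eqt (back x a :: u)) (nbr x a) ≠ 0 →
        ∃ z k v, F.g z k = v ++ back x a :: u ∧ walk z v = nbr x a ∧ walk z (F.g z k) = walk x u := by
      intro a ha
      obtain ⟨z, k, v, h1, h2⟩ := (ih _ _).2 ha
      refine ⟨z, k, v, h1, h2, ?_⟩
      rw [h1, walk_append, h2]
      change walk (nbr (nbr x a) (back x a)) u = _
      rw [nbr_nbr]
    constructor
    · by_cases hA : ∃ k, eqt u (F.g x k) ≠ 0
      · obtain ⟨k, hk⟩ := hA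
        have hk' := key1 k hk
        have hs1 : ∑ k, eqt u (F.g x k) = eqt u (F.g x k) := by
          refine Finset.sum_eq_single k (fun m _ hm => ?_) (by simp)
          by_contra hcon
          have hm' := key1 m hcon
          exact hm (F.inj x m x k (by rw [hm', hk'])).2
        have hs2 : ∑ a, F.Q n (eqt (back x a :: u)) (nbr x a) = 0 := by
          refine Finset.sum_eq_zero fun a _ => ?_
          by_contra hcon
          obtain ⟨z, m, v, h1, h2, h3⟩ := key2 a hcon
          obtain ⟨rfl, rfl⟩ := F.inj z m x k (by rw [h3, hk'])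
          rw [hk'] at h1
          have := congrArg List.length h1
          simp at this
          omega
        rw [hs1, hs2, add_zero]
        unfold eqt
        split_ifs <;> omega
      · push Not at hA
        have hs1 : ∑ k, eqt u (F.g x k) = 0 := Finset.sum_eq_zero fun k _ => hA k
        rw [hs1, zero_add]
        by_cases hB : ∃ a, F.Q n (eqt (back x a :: u)) (nbr x a) ≠ 0
        · obtain ⟨a, ha⟩ := hB
          have hs2 : ∑ a, F.Q n (eqt (back x a :: u)) (nbr x a) =
              F.Q n (eqt (back x a :: u)) (nbr x a) := by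
            refine Finset.sum_eq_single a (fun b _ hb => ?_) (by simp)
            by_contra hcon
            obtain ⟨z, k, v, h1, h2, h3⟩ := key2 a ha
            obtain ⟨z', k', v', h1', h2', h3'⟩ := key2 b hcon
            obtain ⟨rfl, rfl⟩ := F.inj z k z' k' (by rw [h3, h3'])
            rw [h1] at h1'
            have hl : v.length = v'.length := by
              have := congrArg List.length h1'
              simp at this
              omega
            obtain ⟨rfl, h5⟩ := List.append_inj h1' hl
            have h6 : back x a = back x b := (List.cons.inj h5).1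
            have h7 : tau (x, b) = tau (x, a) := by
              unfold tau
              exact Prod.ext (h2'.symm.trans h2) h6.symm
            exact hb (Prod.ext_iff.1 (tau_inj h7)).2
          rw [hs2]
          exact (ih _ _).1
        · push Not at hB
          rw [Finset.sum_eq_zero fun a _ => hB a]
          omega
    · intro h
      by_cases hA : ∃ k, eqt u (F.g x k) ≠ 0
      · obtain ⟨k, hk⟩ := hA
        exact ⟨x, k, [], by simpa using key1 k hk, rfl⟩
      · push Not at hA
        rw [Finset.sum_eq_zero fun k _ => hA k, zero_add] at h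
        obtain ⟨a, _, ha⟩ := Finset.exists_ne_zero_of_sum_ne_zero h
        obtain ⟨z, k, v, h1, h2, _⟩ := key2 a ha
        refine ⟨z, k, v ++ [back x a], by simpa using h1, ?_⟩
        rw [walk_append, h2]
        change nbr (nbr x a) (back x a) = x
        exact nbr_nbr x a

/-- units leaving `y.1` through the half-edge `y.2` with `t` steps remaining afterwards -/
def q (t : ℕ) (y : X × L) : ℕ := F.Q F.R (ind t y.2) y.1

theorem Q_fix (h : List L → ℕ) (x : X) :
    F.Q F.R h x = ∑ k, h (F.g x k) + ∑ a, F.Q F.R (hb (back x a) h) (nbr x a) := by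
  rw [← Q_succ]
  exact (F.Q_stab F.R h x (fun l hl => by omega)).symm

theorem R2 (t : ℕ) (x : X) :
    ∑ a, F.q t (x, a) = ∑ k, len (t + 1) (F.g x k) + ∑ a, F.q (t + 1) (tau (x, a)) := by
  unfold q
  rw [← Q_sum, sum_ind, Q_fix]
  congr 1
  refine Finset.sum_congr rfl fun a _ => ?_
  rw [hb_len]
  rfl

theorem len_zero : len 0 = eqt [] := by
  funext l
  cases l <;> simp [len, eqt]

theorem R3 (x : X) : ∑ k, len 0 (F.g x k) + ∑ a, F.q 0 (tau (x, a)) ≤ 1 := by
  have h := (F.Q_eqt F.R [] x).1
  rw [← len_zero, Q_fix] at h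
  simp only [hb_len] at h
  exact h

theorem q_vanish (t : ℕ) (ht : F.R ≤ t) (y : X × L) : F.q t y = 0 := by
  refine F.Q_vanish _ _ _ fun l hl => ?_
  cases l with
  | nil => rfl
  | cons c l =>
    rw [ind_cons]
    rw [List.length_cons] at hl
    rw [if_neg (by rintro ⟨-, h⟩; omega)]

theorem q_le (t : ℕ) (y : X × L) : F.q t y ≤ bd F.R := by
  refine F.Q_le _ _ _ fun l => ?_
  cases l with
  | nil => simp [ind]
  | cons c l => rw [ind_cons]; split_ifs <;> omega

/-- accumulated outflow with at most `r` remaining steps -/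
def A (r : ℕ) (y : X × L) : ℤ := ∑ t ∈ Finset.range r, (F.q t y : ℤ)

/-- the truncated net flow -/
def E (r : ℕ) (y : X × L) : ℤ := F.A (r + 1) (tau y) - F.A r y

theorem A_nonneg (r : ℕ) (y : X × L) : 0 ≤ F.A r y :=
  Finset.sum_nonneg fun _ _ => Int.natCast_nonneg _

theorem A_mono {r s : ℕ} (h : r ≤ s) (y : X × L) : F.A r y ≤ F.A s y :=
  Finset.sum_le_sum_of_subset_of_nonneg (Finset.range_mono h) fun _ _ _ => Int.natCast_nonneg _

theorem A_stab {r : ℕ} (h : F.R ≤ r) (y : X × L) : F.A (r + 1) y = F.A r y := by
  unfold A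
  rw [Finset.sum_range_succ, F.q_vanish r h]
  simp

theorem A_le (y : X × L) : F.A F.R y ≤ F.R * bd F.R := by
  unfold A
  calc ∑ t ∈ Finset.range F.R, (F.q t y : ℤ) ≤ ∑ _t ∈ Finset.range F.R, (bd F.R : ℤ) :=
        Finset.sum_le_sum fun t _ => by exact_mod_cast F.q_le t y
    _ = F.R * bd F.R := by simp

/-- number of the units starting at `x` of length `t` -/
def st (t : ℕ) (x : X) : ℤ := ∑ k, (len t (F.g x k) : ℤ)

theorem N_aux (r : ℕ) (x : X) :
    ∑ a, F.E r (x, a) = ∑ a, (F.q 0 (tau (x, a)) : ℤ) -
      ∑ t ∈ Finset.range r, F.st (t + 1) x := by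
  induction r with
  | zero =>
    unfold E A
    simp
  | succ r ih =>
    have h : ∑ a, F.E (r + 1) (x, a) = ∑ a, F.E r (x, a) + (∑ a, (F.q (r + 1) (tau (x, a)) : ℤ) -
        ∑ a, (F.q r (x, a) : ℤ)) := by
      rw [← Finset.sum_sub_distrib, ← Finset.sum_add_distrib]
      refine Finset.sum_congr rfl fun a _ => ?_
      unfold E A
      rw [Finset.sum_range_succ (fun t => (F.q t (tau (x, a)) : ℤ)) (r + 1),
        Finset.sum_range_succ (fun t => (F.q t (x, a) : ℤ)) r]
      ring
    have h2 := F.R2 r x
    have h3 : ∑ a, (F.q r (x, a) : ℤ) = F.st (r + 1) x + ∑ a, (F.q (r + 1) (tau (x, a)) : ℤ) := by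
      unfold st
      exact_mod_cast h2
    rw [h, ih, h3, Finset.sum_range_succ]
    ring

theorem st_sum (x : X) (r : ℕ) : ∑ t ∈ Finset.range r, F.st t x =
    ∑ k, (if (F.g x k).length < r then 1 else 0 : ℤ) := by
  unfold st
  rw [Finset.sum_comm]
  refine Finset.sum_congr rfl fun k _ => ?_
  unfold len
  by_cases h : (F.g x k).length < r
  · rw [if_pos h, Finset.sum_eq_single (F.g x k).length]
    · simp
    · intro b _ hb
      rw [if_neg (Ne.symm hb)]
      rfl
    · intro hcon
      exact absurd (Finset.mem_range.2 h) hcon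
  · rw [if_neg h]
    refine Finset.sum_eq_zero fun t ht => ?_
    rw [if_neg]
    · rfl
    · have := Finset.mem_range.1 ht
      omega

theorem N_le (r : ℕ) (x : X) : ∑ a, F.E r (x, a) ≤ 1 -
    ∑ k, (if (F.g x k).length < r + 1 then 1 else 0 : ℤ) := by
  have h1 := F.N_aux r x
  have h2 := F.R3 x
  have h3 : F.st 0 x + ∑ a, (F.q 0 (tau (x, a)) : ℤ) ≤ 1 := by
    unfold st
    exact_mod_cast h2
  have h4 := F.st_sum x (r + 1)
  rw [Finset.sum_range_succ'] at h4
  rw [← h4]
  linarith

theorem N_le_one (r : ℕ) (x : X) : ∑ a, F.E r (x, a) ≤ 1 := by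
  have h := F.N_le r x
  have h2 : (0 : ℤ) ≤ ∑ k, (if (F.g x k).length < r + 1 then 1 else 0 : ℤ) :=
    Finset.sum_nonneg fun k _ => by split_ifs <;> norm_num
  linarith

theorem N_le_neg (x : X) : ∑ a, F.E F.R (x, a) ≤ -1 := by
  have h := F.N_le F.R x
  have h2 : ∑ k, (if (F.g x k).length < F.R + 1 then 1 else 0 : ℤ) = 2 := by
    have : ∀ k, (if (F.g x k).length < F.R + 1 then 1 else 0 : ℤ) = 1 := fun k => by
      have := F.len_le x k
      rw [if_pos (by omega)]
    rw [Fin.sum_univ_two, this, this]
    norm_num
  linarith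

theorem E_anti (y : X × L) : F.E F.R (tau y) = -F.E F.R y := by
  unfold E
  rw [tau_tau, F.A_stab le_rfl, F.A_stab le_rfl]
  ring

theorem E_step (r : ℕ) (y : X × L) : -F.E r (tau y) ≤ F.E (r + 1) y := by
  unfold E
  rw [tau_tau]
  have := F.A_mono (show r ≤ r + 1 + 1 by omega) (tau y)
  linarith

theorem E_le (y : X × L) : F.E F.R y ≤ F.R * bd F.R := by
  unfold E
  rw [F.A_stab le_rfl]
  have h1 := F.A_le (tau y)
  have h2 := F.A_nonneg F.R y
  linarith

/-! ### Measurability -/

theorem meas_h (h : List L → ℕ) (k : Fin 2) : Measurable (fun x => h (F.g x k)) := by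
  refine measurable_to_countable' fun m => ?_
  have : (fun x => h (F.g x k)) ⁻¹' {m} = ⋃ l ∈ {l | h l = m}, {x | F.g x k = l} := by
    ext x
    simp
  rw [this]
  exact MeasurableSet.biUnion (Set.to_countable _) fun l _ => F.meas k l

theorem meas_Q (n : ℕ) : ∀ h : List L → ℕ, Measurable (F.Q n h) := by
  induction n with
  | zero =>
    intro h
    have : F.Q 0 h = fun x => ∑ k, h (F.g x k) := funext fun x => F.Q_zero h x
    rw [this]
    exact Finset.measurable_sum _ fun k _ => F.meas_h h k
  | succ n ih =>
    intro h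
    have : F.Q (n + 1) h = fun x => ∑ k, h (F.g x k) +
        ∑ a, F.Q n (hb (back x a) h) (nbr x a) := funext fun x => F.Q_succ n h x
    rw [this]
    refine (Finset.measurable_sum _ fun k _ => F.meas_h h k).add
      (Finset.measurable_sum _ fun a _ => ?_)
    have h1 : Measurable (fun p : X × L => F.Q n (hb p.2 h) p.1) :=
      measurable_from_prod_countable_left fun b => ih (hb b h)
    exact h1.comp ((measurable_nbr a).prodMk (measurable_back a))

theorem meas_q (t : ℕ) : Measurable (F.q t) := by
  refine measurable_from_prod_countable_left fun b => ?_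
  exact F.meas_Q F.R (ind t b)

theorem meas_A (r : ℕ) : Measurable (F.A r) := by
  unfold A
  refine Finset.measurable_sum _ fun t _ => ?_
  exact measurable_from_top.comp (F.meas_q t)

theorem meas_E (r : ℕ) : Measurable (F.E r) := by
  unfold E
  exact ((F.meas_A (r + 1)).comp measurable_tau).sub (F.meas_A r)

end Flow

end Pool.Agent.H71.PP
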