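import Pool.Agent.H71.BD.Borel
import Pool.Agent.H71.PP.Units

set_option autoImplicit false

/-!
# The games
-/

noncomputable section

namespace Pool.Agent.H71.PP

open Pool.Agent.H71.BD

/-- agreement of branches below level `n` -/
def eqB (n : ℕ) (b b' : Br) : Prop := ∀ w, w.length < n → b w = b' w
/-- agreement below level `n` -/
def eqv (n : ℕ) (d d' : D) : Prop := ∀ a, eqB n (d a) (d' a)
/-- strictly causal maps -/
def SC (Θ : D → D) : Prop := ∀ n d d', eqv n d d' → eqv (n + 1) (Θ d) (Θ d')

theorem eqv.symm {n : ℕ} {d d' : D} (h : eqv n d d') : eqv n d' d :=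
  fun a w hw => (h a w hw).symm

theorem SC.fixpoint {F : D → D} (h : SC F) : ∃ d, F d = d := by
  have h1 : ∀ n, eqv n (F^[n] default) (F^[n + 1] default) := by
    intro n
    induction n with
    | zero => intro a w hw; omega
    | succ n ih =>
      rw [Function.iterate_succ_apply' F n, Function.iterate_succ_apply' F (n + 1)]
      exact h _ _ _ ih
  have h2 : ∀ n m, eqv n (F^[n] default) (F^[n + m] default) := by
    intro n m
    induction m with
    | zero => intro a w _; rfl
    | succ m ih =>
      intro a w hw
      rw [ih a w hw]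
      exact h1 (n + m) a w (by omega)
  let d : D := fun a w => F^[w.length + 1] default a w
  have h3 : ∀ n, eqv n d (F^[n] default) := by
    intro n a w hw
    obtain ⟨m, rfl⟩ := Nat.exists_eq_add_of_lt hw
    have := h2 (w.length + 1) m a w (by omega)
    have e : w.length + 1 + m = w.length + m + 1 := by omega
    rw [e] at this
    exact this
  refine ⟨d, funext fun a => funext fun w => ?_⟩
  have h4 := h _ _ _ (h3 (w.length + 1)) a w (by omega)
  rw [h4, ← Function.iterate_succ_apply' F (w.length + 1)]
  exact (h1 (w.length + 1) a w (by omega)).symm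

/-- The player owning the branches in `S` can force `P`. -/
def Forces (S : Set L) (P : D → Prop) : Prop :=
  ∃ Θ : D → D, SC Θ ∧ ∀ d, (∀ a ∈ S, d a = Θ d a) → P d

theorem Forces.mono {S : Set L} {P Q : D → Prop} (h : Forces S P) (hPQ : ∀ d, P d → Q d) :
    Forces S Q := by
  obtain ⟨Θ, h1, h2⟩ := h
  exact ⟨Θ, h1, fun d hd => hPQ d (h2 d hd)⟩

open Classical in
theorem forces_all {S : Set L} {P : L → D → Prop} (h : ∀ a ∈ S, Forces {a} (P a)) :
    Forces S (fun d => ∀ a ∈ S, P a d) := by
  choose! Θ h1 h2 using h
  refine ⟨fun d a => if a ∈ S then Θ a d a else default, fun n d d' hd a => ?_,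
    fun d hd a ha => h2 a ha d fun c hc => ?_⟩
  · by_cases ha : a ∈ S
    · simp only [if_pos ha]
      exact h1 a ha n d d' hd a
    · simp only [if_neg ha]
      intro w _
      rfl
  · obtain rfl : c = a := hc
    have := hd c ha
    simpa only [if_pos ha] using this

open Classical in
theorem forces_union {S T : Set L} {P Q : D → Prop} (hS : Forces S P) (hT : Forces T Q)
    (hd : ∀ a ∈ T, a ∉ S) : Forces (S ∪ T) (fun d => P d ∧ Q d) := by
  obtain ⟨Θ, h1, h2⟩ := hS
  obtain ⟨Θ', h1', h2'⟩ := hT
  refine ⟨fun d a => if a ∈ S then Θ d a else Θ' d a, fun n d d' hd a => ?_,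
    fun d hdd => ⟨h2 d fun a ha => ?_, h2' d fun a ha => ?_⟩⟩
  · by_cases ha : a ∈ S
    · simp only [if_pos ha]
      exact h1 n d d' hd a
    · simp only [if_neg ha]
      exact h1' n d d' hd a
  · have := hdd a (Or.inl ha)
    simpa only [if_pos ha] using this
  · have := hdd a (Or.inr ha)
    simpa only [if_neg (hd a ha)] using this

theorem forces_univ {S : Set L} {P : D → Prop} (h : Forces S P) (hS : ∀ a, a ∈ S) :
    ∃ d, P d := by
  obtain ⟨Θ, h1, h2⟩ := h
  obtain ⟨d, hd⟩ := h1.fixpoint
  exact ⟨d, h2 d fun a _ => by rw [hd]⟩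

/-- moving a strategy of the complement of the branch `k` across an edge -/
theorem glue (k j : L) {Ψ : D → D} (hΨ : ∀ n d d', eqB n (d k) (d' k) → eqv n (Ψ d) (Ψ d'))
    {Q : D → Prop} (hQ : ∀ d, (∀ c, c ≠ k → d c = Ψ d c) → Q d) :
    Forces {j} (fun d => d j [] = k ∧ Q (rr d j k)) := by
  refine ⟨fun d _ => node k (fun i => Ψ (rr d j k) (k.succAbove i)), ?_, ?_⟩
  · intro n d d' hd a w hw
    have h1 : eqB (n + 1) (rr d j k k) (rr d' j k k) := by
      rw [rr_same, rr_same]
      intro v hv
      cases v with
      | nil => rfl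
      | cons i v =>
        rw [List.length_cons] at hv
        exact hd _ _ (by omega)
    cases w with
    | nil => rfl
    | cons i w =>
      rw [List.length_cons] at hw
      exact hΨ _ _ _ h1 _ _ (by omega)
  · intro d hd
    have h1 := hd j rfl
    refine ⟨by rw [h1]; rfl, hQ _ fun c hc => ?_⟩
    rcases Fin.eq_self_or_eq_succAbove k c with rfl | ⟨i, rfl⟩
    · exact absurd rfl hc
    · rw [rr_succAbove]
      conv_lhs => rw [h1]
      rfl

/-! ### Determinacy -/

/-- the game tree: positions are lists of moves -/
def gameT : GTree.{0} where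
  V := List D
  lev := List.length
  par := List.tail
  lev_par v := by cases v <;> simp
  par_root v hv := by
    rw [List.length_eq_zero_iff] at hv
    rw [hv]; rfl
  pruned v := ⟨default :: v, rfl, rfl⟩

/-- the `n`-th move -/
def mv (x : Body gameT) (n : ℕ) : D := List.headI (x (n + 1))

theorem cons_of_child {v w : List D} (h : IsChild gameT w v) : w = List.headI w :: v := by
  obtain ⟨h1, h2⟩ := h
  cases w with
  | nil => exact absurd h1 (by change (0 : ℕ) ≠ List.length v + 1; omega)
  | cons p w =>
    change p :: w = p :: v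
    rw [← h2]
    rfl

theorem body_eq_of_le {T : GTree.{0}} {x y : Body T} {n m : ℕ} (h : x n = y n) (hm : m ≤ n) :
    x m = y m := by
  rw [← anc_body x hm, ← anc_body y hm, h]

/-- positions when one player uses `s` and the other plays `f` -/
def pos (s : List D → List D) (i : Fin 2) (f : ℕ → D) : ℕ → List D
  | 0 => []
  | n + 1 => if n % 2 = (i : ℕ) then s (pos s i f n) else f n :: pos s i f n

theorem pos_child (s : Strat gameT) (i : Fin 2) (f : ℕ → D) (n : ℕ) :
    IsChild gameT (pos s.1 i f (n + 1)) (pos s.1 i f n) := by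
  by_cases h : n % 2 = (i : ℕ)
  · have : pos s.1 i f (n + 1) = s.1 (pos s.1 i f n) := if_pos h
    rw [this]
    exact s.child _
  · have : pos s.1 i f (n + 1) = f n :: (pos s.1 i f n) := if_neg h
    rw [this]
    exact ⟨rfl, rfl⟩

theorem pos_len (s : Strat gameT) (i : Fin 2) (f : ℕ → D) (n : ℕ) :
    gameT.lev (pos s.1 i f n) = n := by
  induction n with
  | zero => rfl
  | succ n ih => rw [(pos_child s i f n).1, ih]

/-- the play -/
def mkPlay (s : Strat gameT) (i : Fin 2) (f : ℕ → D) : Body gameT :=
  ⟨pos s.1 i f, fun n => ⟨pos_len s i f n, (pos_child s i f n).2⟩⟩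

theorem mkPlay_cons (s : Strat gameT) (i : Fin 2) (f : ℕ → D) : Cons i s (mkPlay s i f) := by
  intro n hn
  exact if_pos hn

theorem mv_mkPlay (s : Strat gameT) (i : Fin 2) (f : ℕ → D) (n : ℕ) (hn : n % 2 ≠ (i : ℕ)) :
    mv (mkPlay s i f) n = f n := by
  have : pos s.1 i f (n + 1) = f n :: (pos s.1 i f n) := if_neg hn
  change List.headI (pos s.1 i f (n + 1)) = f n
  rw [this]
  rfl

theorem pos_congr (s : List D → List D) (i : Fin 2) {f f' : ℕ → D} {n : ℕ}
    (h : ∀ m < n, m % 2 ≠ (i : ℕ) → f m = f' m) : pos s i f n = pos s i f' n := by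
  induction n with
  | zero => rfl
  | succ n ih =>
    rw [pos, pos, ih fun m hm => h m (by omega)]
    by_cases hn : n % 2 = (i : ℕ)
    · rw [if_pos hn, if_pos hn]
    · rw [if_neg hn, if_neg hn, h n (by omega) hn]

/-- the outcome of a play: the branch `a` is played by player `0` -/
def outc (a : L) (x : Body gameT) : D :=
  fun c w => if c = a then mv x (2 * w.length) c w else mv x (2 * w.length + 1) c w

theorem borel_outc (a : L) {P : Set D} (hP : MeasurableSet P) :
    BorelB (outc a ⁻¹' P) := by
  let ms : MeasurableSpace (Body gameT) :=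
    { MeasurableSet' := BorelB
      measurableSet_empty := BorelB.opn _ (fun x hx => absurd hx (Set.notMem_empty x))
      measurableSet_compl := fun s hs => BorelB.compl s hs
      measurableSet_iUnion := fun f hf => BorelB.union f hf }
  have h : Measurable (outc a) := by
    refine measurable_D fun c w => measurable_to_countable' fun v => ?_
    refine BorelB.opn _ fun x hx => ⟨2 * w.length + 2, fun y hy => ?_⟩
    have h1 : y (2 * w.length + 1) = x (2 * w.length + 1) := body_eq_of_le hy (by omega)
    have h2 : outc a y c w = outc a x c w := by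
      unfold outc mv
      rw [hy, h1]
    change outc a y c w = v
    rw [h2]
    exact hx
  exact h hP

/-- level `m` of the branches in `S` -/
def tr (S : L → Prop) [DecidablePred S] (m : ℕ) (d : D) : D :=
  fun c w => if S c ∧ w.length = m then d c w else 0

theorem det (a : L) {P : Set D} (hP : MeasurableSet P) :
    Forces {a} (fun d => d ∈ P) ∨ ∃ Ψ : D → D,
      (∀ n d d', eqB n (d a) (d' a) → eqv n (Ψ d) (Ψ d')) ∧
      ∀ d, (∀ c, c ≠ a → d c = Ψ d c) → d ∉ P := by
  rcases borel_det (borel_outc a hP) ([] : List D) rfl with ⟨s, hs⟩ | ⟨s, hs⟩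
  · left
    let f : D → ℕ → D := fun d n => tr (fun c => c ≠ a) (n / 2) d
    refine ⟨fun d _ => outc a (mkPlay s 0 (f d)) a, ?_, ?_⟩
    · intro n d d' hd c w hw
      change outc a (mkPlay s 0 (f d)) a w = outc a (mkPlay s 0 (f d')) a w
      unfold outc
      rw [if_pos rfl, if_pos rfl]
      have : pos s.1 0 (f d) (2 * w.length + 1) = pos s.1 0 (f d') (2 * w.length + 1) := by
        refine pos_congr s.1 0 fun m hm hm2 => ?_
        funext c v
        change (if _ then _ else _) = (if _ then _ else _)
        by_cases h : c ≠ a ∧ v.length = m / 2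
        · rw [if_pos h, if_pos h]
          have h3 : m % 2 ≠ 0 := hm2
          exact hd c v (by omega)
        · rw [if_neg h, if_neg h]
      change List.headI (pos s.1 0 (f d) (2 * w.length + 1)) a w =
        List.headI (pos s.1 0 (f d') (2 * w.length + 1)) a w
      rw [this]
    · intro d hd
      have h1 := hd a rfl
      have h2 : outc a (mkPlay s 0 (f d)) = d := by
        funext c
        by_cases hc : c = a
        · subst hc; exact h1.symm
        · funext w
          unfold outc
          rw [if_neg hc, mv_mkPlay _ _ _ _ (by simp)]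
          change (if _ then _ else _) = _
          rw [if_pos ⟨hc, by omega⟩]
      rw [← h2]
      exact hs (mkPlay s 0 (f d)) rfl (mkPlay_cons s 0 (f d))
  · right
    let f : D → ℕ → D := fun d n => tr (fun c => c = a) (n / 2) d
    refine ⟨fun d => outc a (mkPlay s 1 (f d)), ?_, ?_⟩
    · intro n d d' hd c w hw
      change outc a (mkPlay s 1 (f d)) c w = outc a (mkPlay s 1 (f d')) c w
      unfold outc
      by_cases hc : c = a
      · rw [if_pos hc, if_pos hc, mv_mkPlay _ _ _ _ (by simp), mv_mkPlay _ _ _ _ (by simp)]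
        change (if _ then _ else _) = (if _ then _ else _)
        rw [if_pos ⟨hc, by omega⟩, if_pos ⟨hc, by omega⟩]
        rw [hc]
        exact hd w hw
      · rw [if_neg hc, if_neg hc]
        have : pos s.1 1 (f d) (2 * w.length + 2) = pos s.1 1 (f d') (2 * w.length + 2) := by
          refine pos_congr s.1 1 fun m hm hm2 => ?_
          funext c v
          change (if _ then _ else _) = (if _ then _ else _)
          by_cases h : c = a ∧ v.length = m / 2
          · rw [if_pos h, if_pos h, h.1]
            exact hd v (by omega)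
          · rw [if_neg h, if_neg h]
        change List.headI (pos s.1 1 (f d) (2 * w.length + 2)) c w =
          List.headI (pos s.1 1 (f d') (2 * w.length + 2)) c w
        rw [this]
    · intro d hd
      have h2 : outc a (mkPlay s 1 (f d)) = d := by
        funext c
        by_cases hc : c = a
        · funext w
          unfold outc
          rw [if_pos hc, mv_mkPlay _ _ _ _ (by simp)]
          change (if _ then _ else _) = _
          rw [if_pos ⟨hc, by omega⟩]
        · exact (hd c hc).symm
      intro hdP
      rw [← h2] at hdP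
      exact hs (mkPlay s 1 (f d)) rfl (mkPlay_cons s 1 (f d)) hdP

/-! ### The contradiction -/

/-- the labels of the first type -/
def Ch : Set L := {a | a < 3}
/-- the labels of the second type -/
def Pa : Set L := {a | ¬ a < 3}

theorem compat_Pa_Ch {j k : L} (hj : j ∈ Pa) (hk : k ∈ Ch) : compat j k := by
  unfold compat Pa Ch at *
  simp only [Set.mem_ofPred_eq] at *
  tauto

theorem compat_Ch_Pa {j k : L} (hj : j ∈ Pa) (hk : k ∈ Ch) : compat k j :=
  compat_symm (compat_Pa_Ch hj hk)

theorem tau_toX {d : D} {a b : L} (hc : compat a b) (h : d a [] = b) :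
    tau (toX d, a) = (toX (rr d a b), b) :=
  Prod.ext (nbr_toX hc h) (back_toX hc h)

namespace Flow

variable (F : Flow)

/-- total flow through the half-edges of the first type -/
def S3 (r : ℕ) (d : D) : ℤ := F.E r (toX d, 0) + F.E r (toX d, 1) + F.E r (toX d, 2)

theorem sum5 (r : ℕ) (d : D) : ∑ a, F.E r (toX d, a) =
    F.S3 r d + (F.E r (toX d, 3) + F.E r (toX d, 4)) := by
  rw [Fin.sum_univ_five]
  unfold S3
  ring

theorem meas_E_toX (r : ℕ) (a : L) : Measurable (fun d => F.E r (toX d, a)) :=
  (F.meas_E r).comp (measurable_toX.prodMk measurable_const)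

theorem meas_E_tau (r : ℕ) (a : L) : Measurable (fun d => F.E r (tau (toX d, a))) :=
  (F.meas_E r).comp (measurable_tau.comp (measurable_toX.prodMk measurable_const))

theorem force_le (r : ℕ) (h : Forces Ch (fun d => 0 ≤ F.S3 r d)) (k : L) (hk : k ∈ Ch) :
    Forces {k} (fun d => F.E r (tau (toX d, k)) ≤ 0) := by
  have hm : MeasurableSet {d : D | F.E r (tau (toX d, k)) ≤ 0} :=
    measurableSet_le (F.meas_E_tau r k) measurable_const
  rcases det k hm with h1 | ⟨Ψ, h1, h2⟩
  · exact h1
  exfalso
  have h3 : ∀ j ∈ Pa, Forces {j} (fun d => 1 ≤ F.E r (toX d, j)) := by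
    intro j hj
    have hg := glue k j h1 (Q := fun d => 1 ≤ F.E r (tau (toX d, k))) (fun d hd => by
      have := h2 d hd
      simp only [Set.mem_ofPred_eq, not_le] at this
      exact this)
    refine hg.mono fun d hd => ?_
    have h4 := tau_toX (compat_Pa_Ch hj hk) hd.1
    have h5 := hd.2
    rw [← h4, tau_tau] at h5
    exact h5
  have h4 := forces_union h (forces_all h3) (fun a ha hb => ha hb)
  obtain ⟨d, hd1, hd2⟩ := forces_univ h4 (fun a => by
    by_cases ha : a < 3
    · exact Or.inl ha
    · exact Or.inr ha)
  have h5 := F.N_le_one r (toX d)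
  rw [F.sum5] at h5
  have h6 := hd2 3 (by unfold Pa; decide)
  have h7 := hd2 4 (by unfold Pa; decide)
  linarith

theorem claimA (r : ℕ) : Forces Ch (fun d => 0 ≤ F.S3 r d) := by
  induction r with
  | zero =>
    refine ⟨fun _ => default, fun n d d' _ a w _ => rfl, fun d _ => ?_⟩
    have h : ∀ y, 0 ≤ F.E 0 y := by
      intro y
      unfold E
      have h1 := F.A_nonneg (0 + 1) (tau y)
      have h2 : F.A 0 y = 0 := by unfold A; simp
      linarith
    unfold S3
    have := h (toX d, 0)
    have := h (toX d, 1)
    have := h (toX d, 2)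
    linarith
  | succ r ih =>
    have h := forces_all (fun k hk => F.force_le r ih k hk)
    refine h.mono fun d hd => ?_
    unfold S3
    have h0 := hd 0 (by unfold Ch; decide)
    have h1 := hd 1 (by unfold Ch; decide)
    have h2 := hd 2 (by unfold Ch; decide)
    have e0 := F.E_step r (toX d, 0)
    have e1 := F.E_step r (toX d, 1)
    have e2 := F.E_step r (toX d, 2)
    linarith

theorem claimB (c : ℕ) : Forces Ch (fun d => 3 * (c : ℤ) ≤ F.S3 F.R d) := by
  induction c with
  | zero => simpa using F.claimA F.R
  | succ c ih =>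
    -- some parent label works
    have hj : ∃ j ∈ Pa, ¬ Forces {j} (fun d => -(c : ℤ) ≤ F.E F.R (toX d, j)) := by
      by_contra hcon
      push Not at hcon
      have h4 := forces_union ih (forces_all hcon) (fun a ha hb => ha hb)
      obtain ⟨d, hd1, hd2⟩ := forces_univ h4 (fun a => by
        by_cases ha : a < 3
        · exact Or.inl ha
        · exact Or.inr ha)
      have h5 := F.N_le_neg (toX d)
      rw [F.sum5] at h5
      have h6 := hd2 3 (by unfold Pa; decide)
      have h7 := hd2 4 (by unfold Pa; decide)
      have h8 : (0 : ℤ) ≤ c := Int.natCast_nonneg c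
      linarith
    obtain ⟨j, hj, hnf⟩ := hj
    have hm : MeasurableSet {d : D | -(c : ℤ) ≤ F.E F.R (toX d, j)} :=
      measurableSet_le measurable_const (F.meas_E_toX F.R j)
    rcases det j hm with h1 | ⟨Ψ, h1, h2⟩
    · exact absurd h1 hnf
    have h3 : ∀ k ∈ Ch, Forces {k} (fun d => (c : ℤ) + 1 ≤ F.E F.R (toX d, k)) := by
      intro k hk
      have hg := glue j k h1 (Q := fun d => F.E F.R (toX d, j) < -(c : ℤ)) (fun d hd => by
        have := h2 d hd
        simpa only [Set.mem_ofPred_eq, not_le] using this)
      refine hg.mono fun d hd => ?_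
      have h4 := tau_toX (compat_Ch_Pa hj hk) hd.1
      have h5 := hd.2
      rw [← h4, F.E_anti] at h5
      linarith
    refine (forces_all h3).mono fun d hd => ?_
    unfold S3
    have h0 := hd 0 (by unfold Ch; decide)
    have h1 := hd 1 (by unfold Ch; decide)
    have h2 := hd 2 (by unfold Ch; decide)
    push_cast
    linarith

/-- There is no flow. -/
theorem contradiction (F : Flow) : False := by
  obtain ⟨Θ, h1, h2⟩ := F.claimB (F.R * bd F.R + 1)
  obtain ⟨d, hd⟩ := h1.fixpoint
  have h3 := h2 d fun a _ => by rw [hd]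
  unfold S3 at h3
  have e0 := F.E_le (toX d, 0)
  have e1 := F.E_le (toX d, 1)
  have e2 := F.E_le (toX d, 2)
  push_cast at h3
  linarith

end Flow

end Pool.Agent.H71.PP
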