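import Pool.Agent.H71.PP.TypeSemi
import Pool.Agent.H71.PP.Game

set_option autoImplicit false

/-!
# The counterexample
-/

noncomputable section

namespace Pool.Agent.H71.PP

/-- the underlying space -/
abbrev Y := X × L

/-- rotation of the half-edges -/
def rho : Equiv.Perm Y := Equiv.prodCongr (Equiv.refl X) (Equiv.addRight (1 : Fin 5))

/-- crossing edges -/
def tauP : Equiv.Perm Y := ⟨tau, tau, tau_tau, tau_tau⟩

/-- the generators -/
def gen (b : Bool) : Equiv.Perm Y := if b then tauP else rho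

/-- the action -/
def act : FreeGroup Bool →* Equiv.Perm Y := FreeGroup.lift gen

instance actY : MulAction (FreeGroup Bool) Y := MulAction.compHom Y act

theorem smul_eq (γ : FreeGroup Bool) (y : Y) : γ • y = act γ y := rfl

/-- elements acting measurably and by bounded walks -/
def Good (γ : Equiv.Perm Y) : Prop :=
  Measurable (fun y : Y => γ y) ∧ ∃ (f : Y → List L) (R : ℕ), (∀ l, MeasurableSet {y | f y = l}) ∧
    ∀ y, (f y).length ≤ R ∧ (γ y).1 = walk y.1 (f y)

theorem Good.one : Good 1 := by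
  refine ⟨measurable_id, fun _ => [], 0, fun l => ?_, fun y => ⟨le_rfl, rfl⟩⟩
  exact MeasurableSet.const _

theorem Good.mul {γ δ : Equiv.Perm Y} (h : Good γ) (h' : Good δ) : Good (γ * δ) := by
  obtain ⟨h1, f, R, h2, h3⟩ := h
  obtain ⟨h1', f', R', h2', h3'⟩ := h'
  refine ⟨h1.comp h1', fun y => f' y ++ f (δ y), R' + R, fun l => ?_, fun y => ⟨?_, ?_⟩⟩
  · have : {y | f' y ++ f (δ y) = l} = ⋃ p ∈ {p : List L × List L | p.1 ++ p.2 = l},
        ({y | f' y = p.1} ∩ (fun y => δ y) ⁻¹' {y | f y = p.2}) := by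
      ext y
      simp only [Set.mem_iUnion, Set.mem_inter_iff, Set.mem_preimage, Set.mem_ofPred_eq]
      constructor
      · intro h
        exact ⟨(f' y, f (δ y)), h, rfl, rfl⟩
      · rintro ⟨p, h, h4, h5⟩
        rw [h4, h5]
        exact h
    rw [this]
    exact MeasurableSet.biUnion (Set.to_countable _) fun p _ => (h2' p.1).inter (h1' (h2 p.2))
  · rw [List.length_append]
    exact Nat.add_le_add (h3' y).1 (h3 _).1
  · rw [walk_append, ← (h3' y).2]
    exact (h3 (δ y)).2

theorem measurable_of_snd {f : L → L} : Measurable (fun y : Y => (y.1, f y.2)) :=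
  measurable_fst.prodMk (measurable_from_top.comp measurable_snd)

theorem Good.rho : Good rho := by
  refine ⟨measurable_of_snd (f := fun a => a + 1), fun _ => [], 0, fun l => MeasurableSet.const _,
    fun y => ⟨le_rfl, rfl⟩⟩

theorem Good.rho_inv : Good (PP.rho)⁻¹ := by
  refine ⟨measurable_of_snd (f := fun a => a + -1), fun _ => [], 0,
    fun l => MeasurableSet.const _, fun y => ⟨le_rfl, rfl⟩⟩

theorem Good.tau : Good tauP := by
  refine ⟨measurable_tau, fun y => [y.2], 1, fun l => ?_, fun y => ⟨le_rfl, rfl⟩⟩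
  exact measurable_snd (MeasurableSet.of_discrete (s := {a : L | [a] = l}))

theorem tauP_inv : tauP⁻¹ = tauP := rfl

theorem act_of (b : Bool) : PP.act (FreeGroup.of b) = gen b := FreeGroup.lift_apply_of

theorem Good.all (γ : FreeGroup Bool) : Good (PP.act γ) := by
  refine FreeGroup.induction_on (C := fun γ => Good (PP.act γ)) γ ?_ ?_ ?_ ?_
  · rw [map_one]; exact Good.one
  · intro b
    rw [act_of]
    cases b
    · exact Good.rho
    · exact Good.tau
  · intro b _
    rw [map_inv, act_of]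
    cases b
    · exact Good.rho_inv
    · exact Good.tau
  · intro x y hx hy
    rw [map_mul]
    exact hx.mul hy

instance : MeasurableConstSMul (FreeGroup Bool) Y := ⟨fun γ => (Good.all γ).1⟩

/-- the basic sets -/
def As (a : L) (n : ℕ) : BSet Y := ⟨{p | p.1.2 = a ∧ p.2 = n},
  ((measurable_snd.comp measurable_fst) (measurableSet_singleton a)).inter
    (measurable_snd (measurableSet_singleton n)), n + 1, fun p hp => by
      have : p.2 = n := hp.2
      omega⟩

/-- the element -/
def al : TypeSemigroup (FreeGroup Bool) Y := cls _ (As 0 0)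

theorem As_step (a : L) (n m : ℕ) :
    cls (FreeGroup Bool) (As (a + 1) m) = cls (FreeGroup Bool) (As a n) := by
  symm
  rw [cls_eq]
  have h := Equidec.single (FreeGroup.of false) m (P := (As a n).1) (j := n) (fun p hp => hp.2)
    (As a n).2.1
  have h2 : img (FreeGroup.of false) m (As a n).1 = (As (a + 1) m).1 := by
    have hg : ∀ y : Y, (FreeGroup.of false) • y = (y.1, y.2 + 1) := by
      intro y
      rw [smul_eq]
      rw [act_of]
      rfl
    ext q
    constructor
    · rintro ⟨p, ⟨hp1, hp2⟩, rfl⟩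
      refine ⟨?_, rfl⟩
      simp only [hg, hp1]
    · rintro ⟨h1, h2⟩
      refine ⟨((q.1.1, a), n), ⟨rfl, rfl⟩, ?_⟩
      simp only [hg]
      exact Prod.ext (Prod.ext rfl h1.symm) h2.symm
  rw [h2] at h
  exact h

theorem As_lev (a : L) (n m : ℕ) :
    cls (FreeGroup Bool) (As a m) = cls (FreeGroup Bool) (As a n) := by
  rw [← As_step a n 0, As_step a m 0]

theorem As_eq (a : L) (n : ℕ) : cls (FreeGroup Bool) (As a n) = al := by
  have h0 : ∀ n, cls (FreeGroup Bool) (As 0 n) = al := fun n => As_lev 0 0 n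
  have h1 : ∀ n, cls (FreeGroup Bool) (As 1 n) = al := fun n => by
    rw [← h0 0, ← As_step 0 0 n]; rfl
  have h2 : ∀ n, cls (FreeGroup Bool) (As 2 n) = al := fun n => by
    rw [← h1 0, ← As_step 1 0 n]; rfl
  have h3 : ∀ n, cls (FreeGroup Bool) (As 3 n) = al := fun n => by
    rw [← h2 0, ← As_step 2 0 n]; rfl
  have h4 : ∀ n, cls (FreeGroup Bool) (As 4 n) = al := fun n => by
    rw [← h3 0, ← As_step 3 0 n]; rfl
  fin_cases a
  · exact h0 n
  · exact h1 n
  · exact h2 n
  · exact h3 n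
  · exact h4 n

theorem As_disj {a b : L} (h : a ≠ b) : Disjoint (As a 0).1 (As b 0).1 := by
  rw [Set.disjoint_left]
  rintro p ⟨h1, _⟩ ⟨h2, _⟩
  exact h (h1.symm.trans h2)

/-- `3 α = 2 α` -/
theorem three_eq_two : (3 : ℕ) • al = (2 : ℕ) • al := by
  have e2 : (2 : ℕ) • al = cls _ (BSet.union (As 3 0) (As 4 0)) := by
    rw [two_nsmul, ← cls_add_of_disjoint (As_disj (by decide)), As_eq, As_eq]
  have hd : Disjoint (BSet.union (As 0 0) (As 1 0)).1 (As 2 0).1 := by
    change Disjoint ((As 0 0).1 ∪ (As 1 0).1) (As 2 0).1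
    rw [Set.disjoint_union_left]
    exact ⟨As_disj (by decide), As_disj (by decide)⟩
  have e3 : (3 : ℕ) • al = cls _ (BSet.union (BSet.union (As 0 0) (As 1 0)) (As 2 0)) := by
    rw [← cls_add_of_disjoint hd, ← cls_add_of_disjoint (As_disj (by decide)), As_eq, As_eq,
      As_eq, show (3 : ℕ) = 2 + 1 from rfl, succ_nsmul, two_nsmul]
  rw [e2, e3, cls_eq]
  have h := Equidec.single (FreeGroup.of true) 0
    (P := (BSet.union (BSet.union (As 0 0) (As 1 0)) (As 2 0)).1) (j := 0) (by
      rintro p ((hp | hp) | hp)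
      · exact hp.2
      · exact hp.2
      · exact hp.2) (BSet.union (BSet.union (As 0 0) (As 1 0)) (As 2 0)).2.1
  have h2 : img (FreeGroup.of true) 0 (BSet.union (BSet.union (As 0 0) (As 1 0)) (As 2 0)).1 =
      (BSet.union (As 3 0) (As 4 0)).1 := by
    have hg : ∀ y : Y, (FreeGroup.of true) • y = tau y := by
      intro y
      rw [smul_eq]
      rw [act_of]
      rfl
    have hA : ∀ p : Y × ℕ, p ∈ (BSet.union (BSet.union (As 0 0) (As 1 0)) (As 2 0)).1 ↔
        p.1.2 < 3 ∧ p.2 = 0 := by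
      intro p
      change ((p.1.2 = 0 ∧ p.2 = 0) ∨ (p.1.2 = 1 ∧ p.2 = 0)) ∨ (p.1.2 = 2 ∧ p.2 = 0) ↔ _
      have : ∀ a : L, a < 3 ↔ (a = 0 ∨ a = 1) ∨ a = 2 := by decide
      rw [this]
      tauto
    have hB : ∀ p : Y × ℕ, p ∈ (BSet.union (As 3 0) (As 4 0)).1 ↔ ¬ p.1.2 < 3 ∧ p.2 = 0 := by
      intro p
      change (p.1.2 = 3 ∧ p.2 = 0) ∨ (p.1.2 = 4 ∧ p.2 = 0) ↔ _
      have : ∀ a : L, ¬ a < 3 ↔ (a = 3 ∨ a = 4) := by decide
      rw [this]
      tauto
    ext q
    rw [hB]
    constructor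
    · rintro ⟨p, hp, rfl⟩
      rw [hA] at hp
      refine ⟨?_, rfl⟩
      simp only [hg]
      have hc := tau_compat p.1
      unfold compat at hc
      exact hc.1 hp.1
    · rintro ⟨h1, h2⟩
      refine ⟨(tau q.1, 0), ?_, ?_⟩
      · rw [hA]
        refine ⟨?_, rfl⟩
        have hc := tau_compat q.1
        unfold compat at hc
        by_contra hcon
        exact h1 (hc.2 hcon)
      · simp only [hg]
        exact Prod.ext (tau_tau _) h2.symm
  rw [h2] at h
  exact h

theorem all_eq (n : ℕ) (hn : 2 ≤ n) : n • al = (2 : ℕ) • al := by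
  induction n, hn using Nat.le_induction with
  | base => rfl
  | succ n _ ih =>
    have h3 : (3 : ℕ) • al = (2 : ℕ) • al + al := succ_nsmul al 2
    rw [succ_nsmul, ih, ← h3, three_eq_two]

/-- `2 α ≤ α` fails -/
theorem not_le : ¬ (2 : ℕ) • al ≤ al := by
  rintro ⟨β, hβ⟩
  obtain ⟨B, rfl⟩ : ∃ B, cls (FreeGroup Bool) B = β := Quotient.exists_rep β
  have hd : Disjoint (As 0 0).1 (As 0 1).1 := by
    rw [Set.disjoint_left]
    rintro p ⟨_, h1⟩ ⟨_, h2⟩
    omega
  obtain ⟨C, hC, hdC⟩ := exists_disj (Γ := FreeGroup Bool) (BSet.union (As 0 0) (As 0 1)) B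
  rw [← hC, two_nsmul] at hβ
  have e : al = cls _ (BSet.union (BSet.union (As 0 0) (As 0 1)) C) := by
    rw [← cls_add_of_disjoint hdC, ← cls_add_of_disjoint hd, As_eq, As_eq]
    exact hβ
  have hE : Equidec (FreeGroup Bool) (BSet.union (BSet.union (As 0 0) (As 0 1)) C).1
      (As 0 0).1 := (cls_eq.1 e).symm
  obtain ⟨r, P, γ, j, k, h1, h2, h3, h4, h5, h6⟩ := hE.elim
  let pt : X → Fin 2 → Y × ℕ := fun x m => ((x, 0), (m : ℕ))
  have hpt : ∀ x m, ∃ i, pt x m ∈ P i := by
    intro x m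
    have : pt x m ∈ (BSet.union (BSet.union (As 0 0) (As 0 1)) C).1 := by
      refine Or.inl ?_
      have hm : m = 0 ∨ m = 1 := by omega
      rcases hm with rfl | rfl
      · exact Or.inl ⟨rfl, rfl⟩
      · exact Or.inr ⟨rfl, rfl⟩
    rw [h5] at this
    exact Set.mem_iUnion.1 this
  choose idx hidx using hpt
  have hgood : ∀ i : Fin r, ∃ (f : Y → List L) (R : ℕ), (∀ l, MeasurableSet {y | f y = l}) ∧
    ∀ y, (f y).length ≤ R ∧ (act (γ i) y).1 = walk y.1 (f y) := fun i => (Good.all (γ i)).2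
  choose f R hf hfR using hgood
  have himg : ∀ x m, (γ (idx x m) • ((x, 0) : Y), k (idx x m)) ∈ (As 0 0).1 := by
    intro x m
    rw [h6]
    exact Set.mem_iUnion.2 ⟨idx x m, _, hidx x m, rfl⟩
  refine Flow.contradiction
    { g := fun x m => f (idx x m) (x, 0)
      R := ∑ i, R i
      meas := fun m l => ?_
      len_le := fun x m => ?_
      inj := fun x m y n h => ?_ }
  · have : {x | f (idx x m) (x, 0) = l} =
        ⋃ i, ((fun x => pt x m) ⁻¹' P i ∩ (fun x => ((x, 0) : Y)) ⁻¹' {y | f i y = l}) := by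
      ext x
      constructor
      · intro h
        exact Set.mem_iUnion.2 ⟨idx x m, hidx x m, h⟩
      · intro h
        obtain ⟨i, hi1, hi2⟩ := Set.mem_iUnion.1 h
        have : i = idx x m := by
          by_contra hcon
          exact Set.disjoint_left.1 (h2 _ _ hcon) hi1 (hidx x m)
        rw [this] at hi2
        exact hi2
    rw [this]
    have hm1 : Measurable (fun x : X => ((x, 0) : Y)) := measurable_id.prodMk measurable_const
    exact MeasurableSet.iUnion fun i => ((hm1.prodMk measurable_const) (h1 i)).inter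
      (hm1 (hf i l))
  · exact ((hfR (idx x m) (x, 0)).1).trans
      (Finset.single_le_sum (f := R) (fun i _ => Nat.zero_le _) (Finset.mem_univ _))
  · have e1 : (γ (idx x m) • ((x, 0) : Y)).1 = walk x (f (idx x m) (x, 0)) :=
      (hfR (idx x m) (x, 0)).2
    have e2 : (γ (idx y n) • ((y, 0) : Y)).1 = walk y (f (idx y n) (y, 0)) :=
      (hfR (idx y n) (y, 0)).2
    obtain ⟨a1, a2⟩ := himg x m
    obtain ⟨b1, b2⟩ := himg y n
    have e3 : (γ (idx x m) • ((x, 0) : Y), k (idx x m)) =
        (γ (idx y n) • ((y, 0) : Y), k (idx y n)) := by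
      refine Prod.ext (Prod.ext ?_ ?_) ?_
      · change (γ (idx x m) • ((x, 0) : Y)).1 = (γ (idx y n) • ((y, 0) : Y)).1
        rw [e1, e2]
        exact h
      · exact a1.trans b1.symm
      · exact a2.trans b2.symm
    have e4 : idx x m = idx y n := by
      by_contra hcon
      refine Set.disjoint_left.1 (h3 _ _ hcon) ⟨_, hidx x m, rfl⟩ ?_
      exact ⟨_, hidx y n, e3.symm⟩
    have e5 := (Prod.ext_iff.1 e3).1
    simp only at e5
    rw [e4] at e5
    have e6 := smul_left_cancel _ e5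
    refine ⟨(Prod.ext_iff.1 e6).1, ?_⟩
    have e7 := h4 _ _ (hidx x m)
    have e8 := h4 _ _ (hidx y n)
    rw [e4] at e7
    apply Fin.ext
    exact e7.trans e8.symm

theorem main : ∃ (X : Type) (_ : MeasurableSpace X) (_ : StandardBorelSpace X)
    (_ : MulAction (FreeGroup Bool) X) (_ : MeasurableConstSMul (FreeGroup Bool) X)
    (α : TypeSemigroup (FreeGroup Bool) X),
    (∀ n m : ℕ, 2 ≤ n → 2 ≤ m → n • α = m • α) ∧ ¬ 2 • α ≤ α :=
  ⟨Y, inferInstance, inferInstance, inferInstance, inferInstance, al,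
    fun n m hn hm => by rw [all_eq n hn, all_eq m hm], not_le⟩

end Pool.Agent.H71.PP
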