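import Mathlib

set_option autoImplicit false

/-!
# Equidecomposability of bounded Borel subsets of `X × ℕ`
-/

namespace Pool.Agent.H71.PP

/-- `A` and `B` are equidecomposable: there are finite Borel partitions `A = ⨆ P i`, `B = ⨆ Q i`,
elements `γ i` of the group and levels `j i`, `k i` with `P i ⊆ X × {j i}` and
`Q i = {(γ i • x, k i) : (x, j i) ∈ P i}`. -/
def Equidec (Γ : Type*) {X : Type*} [Group Γ] [MulAction Γ X] [MeasurableSpace X]
    (A B : Set (X × ℕ)) : Prop :=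
  ∃ (r : ℕ) (P Q : Fin r → Set (X × ℕ)) (γ : Fin r → Γ) (j k : Fin r → ℕ),
    (∀ i, MeasurableSet (P i)) ∧ (∀ i, MeasurableSet (Q i)) ∧
    (∀ i i', i ≠ i' → Disjoint (P i) (P i')) ∧ (∀ i i', i ≠ i' → Disjoint (Q i) (Q i')) ∧
    A = ⋃ i, P i ∧ B = ⋃ i, Q i ∧
    (∀ i, ∀ p ∈ P i, p.2 = j i) ∧
    (∀ i, Q i = {q | ∃ x : X, (x, j i) ∈ P i ∧ q = (γ i • x, k i)})

/-- Bounded Borel subsets of `X × ℕ`. -/
def BSet (X : Type*) [MeasurableSpace X] : Type _ :=
  {A : Set (X × ℕ) // MeasurableSet A ∧ ∃ N, ∀ p ∈ A, p.2 < N}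

/-- the least `N` such that all levels of `A` are below `N` -/
noncomputable def height {X : Type*} (A : Set (X × ℕ)) : ℕ := sInf {N | ∀ p ∈ A, p.2 < N}

/-- the copy of `B` obtained by raising all levels by `N` -/
def shift {X : Type*} (N : ℕ) (B : Set (X × ℕ)) : Set (X × ℕ) :=
  {q | ∃ x n, (x, n) ∈ B ∧ q = (x, n + N)}

end Pool.Agent.H71.PP
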