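import Pool.Agent.H71.PP.TypeDefs

set_option autoImplicit false
set_option linter.unusedSectionVars false

/-!
# Basic properties of equidecomposability
-/

namespace Pool.Agent.H71.PP

variable {Γ : Type*} {X : Type*} [Group Γ] [MulAction Γ X] [MeasurableSpace X]
  [MeasurableConstSMul Γ X]

/-- image of a piece -/
def img (γ : Γ) (k : ℕ) (P : Set (X × ℕ)) : Set (X × ℕ) := (fun p => (γ • p.1, k)) '' P

theorem img_eq {γ : Γ} {j k : ℕ} {P : Set (X × ℕ)} (hP : ∀ p ∈ P, p.2 = j) :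
    {q | ∃ x : X, (x, j) ∈ P ∧ q = (γ • x, k)} = img γ k P := by
  ext q
  constructor
  · rintro ⟨x, hx, rfl⟩
    exact ⟨(x, j), hx, rfl⟩
  · rintro ⟨⟨x, n⟩, hp, rfl⟩
    have h : n = j := hP _ hp
    subst h
    exact ⟨x, hp, rfl⟩

theorem measurableSet_img {γ : Γ} {j k : ℕ} {P : Set (X × ℕ)} (hP : ∀ p ∈ P, p.2 = j)
    (hm : MeasurableSet P) : MeasurableSet (img γ k P) := by
  have h : img γ k P = {q | q.2 = k} ∩ (fun q : X × ℕ => (γ⁻¹ • q.1, j)) ⁻¹' P := by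
    ext q
    constructor
    · rintro ⟨⟨x, n⟩, hp, rfl⟩
      have h : n = j := hP _ hp
      subst h
      refine ⟨rfl, ?_⟩
      simpa using hp
    · rintro ⟨h1, h2⟩
      refine ⟨(γ⁻¹ • q.1, j), h2, ?_⟩
      change q.2 = k at h1
      ext
      · simp
      · simpa using h1.symm
  rw [h]
  refine (measurable_snd (measurableSet_singleton k)).inter ?_
  exact (((measurable_const_smul γ⁻¹).comp measurable_fst).prodMk measurable_const) hm

/-- introduction rule, arbitrary finite index type -/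
theorem Equidec.intro {ι : Type*} [Finite ι] {A B : Set (X × ℕ)} (P : ι → Set (X × ℕ))
    (γ : ι → Γ) (j k : ι → ℕ) (hm : ∀ i, MeasurableSet (P i))
    (hd : ∀ i i', i ≠ i' → Disjoint (P i) (P i'))
    (hd' : ∀ i i', i ≠ i' → Disjoint (img (γ i) (k i) (P i)) (img (γ i') (k i') (P i')))
    (hj : ∀ i, ∀ p ∈ P i, p.2 = j i) (hA : A = ⋃ i, P i) (hB : B = ⋃ i, img (γ i) (k i) (P i)) :
    Equidec Γ A B := by
  obtain ⟨r, ⟨e⟩⟩ := Finite.exists_equiv_fin ι
  refine ⟨r, fun i => P (e.symm i), fun i => img (γ (e.symm i)) (k (e.symm i)) (P (e.symm i)),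
    fun i => γ (e.symm i), fun i => j (e.symm i), fun i => k (e.symm i), fun i => hm _,
    fun i => measurableSet_img (hj _) (hm _), fun i i' h => hd _ _ (fun h' => h (e.symm.injective h')),
    fun i i' h => hd' _ _ (fun h' => h (e.symm.injective h')), ?_, ?_, fun i => hj _,
    fun i => (img_eq (hj _)).symm⟩
  · rw [hA]
    exact (e.symm.surjective.iUnion_comp P).symm
  · rw [hB]
    exact (e.symm.surjective.iUnion_comp (fun i => img (γ i) (k i) (P i))).symm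

/-- elimination rule -/
theorem Equidec.elim {A B : Set (X × ℕ)} (h : Equidec Γ A B) :
    ∃ (r : ℕ) (P : Fin r → Set (X × ℕ)) (γ : Fin r → Γ) (j k : Fin r → ℕ),
      (∀ i, MeasurableSet (P i)) ∧ (∀ i i', i ≠ i' → Disjoint (P i) (P i')) ∧
      (∀ i i', i ≠ i' → Disjoint (img (γ i) (k i) (P i)) (img (γ i') (k i') (P i'))) ∧
      (∀ i, ∀ p ∈ P i, p.2 = j i) ∧ A = (⋃ i, P i) ∧ B = (⋃ i, img (γ i) (k i) (P i)) := by
  obtain ⟨r, P, Q, γ, j, k, h1, h2, h3, h4, h5, h6, h7, h8⟩ := h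
  have h9 : ∀ i, Q i = img (γ i) (k i) (P i) := fun i => by rw [h8 i, img_eq (h7 i)]
  refine ⟨r, P, γ, j, k, h1, h3, fun i i' hi => ?_, h7, h5, ?_⟩
  · rw [← h9, ← h9]
    exact h4 i i' hi
  · rw [h6]
    simp only [h9]

theorem img_img_inv (γ : Γ) {j k : ℕ} {P : Set (X × ℕ)} (hP : ∀ p ∈ P, p.2 = j) :
    img γ⁻¹ j (img γ k P) = P := by
  ext q
  constructor
  · rintro ⟨_, ⟨p, hp, rfl⟩, rfl⟩
    have := hP p hp
    simp only [inv_smul_smul]
    rw [← this]
    exact hp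
  · intro hq
    refine ⟨_, ⟨q, hq, rfl⟩, ?_⟩
    simp only [inv_smul_smul]
    rw [← hP q hq]

theorem Equidec.symm {A B : Set (X × ℕ)} (h : Equidec Γ A B) : Equidec Γ B A := by
  obtain ⟨r, P, γ, j, k, h1, h2, h3, h4, h5, h6⟩ := h.elim
  refine Equidec.intro (fun i => img (γ i) (k i) (P i)) (fun i => (γ i)⁻¹) k j
    (fun i => measurableSet_img (h4 i) (h1 i)) h3 (fun i i' hi => ?_) ?_ h6 ?_
  · rw [img_img_inv _ (h4 i), img_img_inv _ (h4 i')]
    exact h2 i i' hi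
  · rintro i _ ⟨p, hp, rfl⟩
    rfl
  · rw [h5]
    exact Set.iUnion_congr fun i => (img_img_inv _ (h4 i)).symm

theorem Equidec.trans {A B C : Set (X × ℕ)} (h : Equidec Γ A B) (h' : Equidec Γ B C) :
    Equidec Γ A C := by
  obtain ⟨r, P, γ, j, k, h1, h2, h3, h4, h5, h6⟩ := h.elim
  obtain ⟨r', P', γ', j', k', h1', h2', h3', h4', h5', h6'⟩ := h'.elim
  refine Equidec.intro (ι := Fin r × Fin r')
    (fun i => P i.1 ∩ (fun p => (γ i.1 • p.1, k i.1)) ⁻¹' P' i.2)
    (fun i => γ' i.2 * γ i.1) (fun i => j i.1) (fun i => k' i.2) (fun i => ?_) ?_ ?_ ?_ ?_ ?_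
  · refine (h1 _).inter ?_
    exact (((measurable_const_smul (γ i.1)).comp measurable_fst).prodMk measurable_const) (h1' _)
  · rintro ⟨a, a'⟩ ⟨b, b'⟩ hab
    rw [Set.disjoint_left]
    rintro p ⟨hp1, hp2⟩ ⟨hp3, hp4⟩
    by_cases hab1 : a = b
    · subst hab1
      have hab2 : a' ≠ b' := fun h => hab (by rw [h])
      exact Set.disjoint_left.1 (h2' _ _ hab2) hp2 hp4
    · exact Set.disjoint_left.1 (h2 _ _ hab1) hp1 hp3
  · rintro ⟨a, a'⟩ ⟨b, b'⟩ hab
    rw [Set.disjoint_left]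
    rintro q ⟨p, ⟨hp1, hp2⟩, rfl⟩ ⟨p', ⟨hp1', hp2'⟩, hpp⟩
    have hp2 : (γ a • p.1, k a) ∈ P' a' := hp2
    have hp2' : (γ b • p'.1, k b) ∈ P' b' := hp2'
    have e1 : (γ' b' * γ b) • p'.1 = (γ' a' * γ a) • p.1 := (Prod.ext_iff.1 hpp).1
    have e2 : k' b' = k' a' := (Prod.ext_iff.1 hpp).2
    rw [mul_smul, mul_smul] at e1
    have hab2 : a' = b' := by
      by_contra hcon
      refine Set.disjoint_left.1 (h3' _ _ hcon) ⟨_, hp2, rfl⟩ ⟨_, hp2', ?_⟩
      exact Prod.ext e1 e2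
    subst hab2
    have e3 : γ b • p'.1 = γ a • p.1 := smul_left_cancel _ e1
    have e4 : k a = k b := (h4' _ _ hp2).trans (h4' _ _ hp2').symm
    have hab1 : a = b := by
      by_contra hcon
      refine Set.disjoint_left.1 (h3 _ _ hcon) ⟨p, hp1, rfl⟩ ⟨p', hp1', ?_⟩
      exact Prod.ext e3 e4.symm
    exact hab (by rw [hab1])
  · rintro ⟨a, a'⟩ p ⟨hp1, _⟩
    exact h4 a p hp1
  · ext p
    constructor
    · intro hp
      rw [h5] at hp
      obtain ⟨i, hi⟩ := Set.mem_iUnion.1 hp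
      have : (γ i • p.1, k i) ∈ B := by
        rw [h6]
        exact Set.mem_iUnion.2 ⟨i, ⟨p, hi, rfl⟩⟩
      rw [h5'] at this
      obtain ⟨i', hi'⟩ := Set.mem_iUnion.1 this
      exact Set.mem_iUnion.2 ⟨(i, i'), hi, hi'⟩
    · intro hp
      obtain ⟨⟨i, i'⟩, hi, _⟩ := Set.mem_iUnion.1 hp
      rw [h5]
      exact Set.mem_iUnion.2 ⟨i, hi⟩
  · ext q
    constructor
    · intro hq
      rw [h6'] at hq
      obtain ⟨i', p', hp', rfl⟩ := Set.mem_iUnion.1 hq
      have : p' ∈ B := by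
        rw [h5']
        exact Set.mem_iUnion.2 ⟨i', hp'⟩
      rw [h6] at this
      obtain ⟨i, p, hp, rfl⟩ := Set.mem_iUnion.1 this
      refine Set.mem_iUnion.2 ⟨(i, i'), p, ⟨hp, hp'⟩, ?_⟩
      simp only [mul_smul]
    · intro hq
      obtain ⟨⟨i, i'⟩, p, ⟨hp, hp'⟩, rfl⟩ := Set.mem_iUnion.1 hq
      rw [h6']
      refine Set.mem_iUnion.2 ⟨i', _, hp', ?_⟩
      simp only [mul_smul]

theorem Equidec.union {A A' B B' : Set (X × ℕ)} (h : Equidec Γ A A') (h' : Equidec Γ B B')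
    (hd : Disjoint A B) (hd' : Disjoint A' B') : Equidec Γ (A ∪ B) (A' ∪ B') := by
  obtain ⟨r, P, γ, j, k, h1, h2, h3, h4, h5, h6⟩ := h.elim
  obtain ⟨r', P', γ', j', k', h1', h2', h3', h4', h5', h6'⟩ := h'.elim
  have key1 : ∀ a b, Disjoint (P a) (P' b) := fun a b =>
    Disjoint.mono (by rw [h5]; exact Set.subset_iUnion P a)
      (by rw [h5']; exact Set.subset_iUnion P' b) hd
  have key2 : ∀ a b, Disjoint (img (γ a) (k a) (P a)) (img (γ' b) (k' b) (P' b)) := fun a b =>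
    Disjoint.mono (by rw [h6]; exact Set.subset_iUnion (fun i => img (γ i) (k i) (P i)) a)
      (by rw [h6']; exact Set.subset_iUnion (fun i => img (γ' i) (k' i) (P' i)) b) hd'
  refine Equidec.intro (ι := Fin r ⊕ Fin r') (Sum.elim P P') (Sum.elim γ γ') (Sum.elim j j')
    (Sum.elim k k') ?_ ?_ ?_ ?_ ?_ ?_
  · rintro (i | i)
    · exact h1 i
    · exact h1' i
  · rintro (a | a) (b | b) hab
    · exact h2 _ _ (fun h => hab (by rw [h]))
    · exact key1 a b
    · exact (key1 b a).symm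
    · exact h2' _ _ (fun h => hab (by rw [h]))
  · rintro (a | a) (b | b) hab
    · exact h3 _ _ (fun h => hab (by rw [h]))
    · exact key2 a b
    · exact (key2 b a).symm
    · exact h3' _ _ (fun h => hab (by rw [h]))
  · rintro (i | i)
    · exact h4 i
    · exact h4' i
  · rw [h5, h5', Set.iUnion_sum]
    rfl
  · rw [h6, h6', Set.iUnion_sum]
    rfl

/-- a single piece -/
theorem Equidec.single (γ : Γ) {j : ℕ} (k : ℕ) {P : Set (X × ℕ)} (hP : ∀ p ∈ P, p.2 = j)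
    (hm : MeasurableSet P) : Equidec Γ P (img γ k P) := by
  refine Equidec.intro (ι := Unit) (fun _ => P) (fun _ => γ) (fun _ => j) (fun _ => k)
    (fun _ => hm) (fun i i' h => absurd (Subsingleton.elim _ _) h)
    (fun i i' h => absurd (Subsingleton.elim _ _) h) (fun _ => hP) ?_ ?_
  · exact (Set.iUnion_const P).symm
  · exact (Set.iUnion_const _).symm

theorem mem_shift {N : ℕ} {B : Set (X × ℕ)} {p : X × ℕ} :
    p ∈ shift N B ↔ N ≤ p.2 ∧ (p.1, p.2 - N) ∈ B := by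
  constructor
  · rintro ⟨x, n, h, rfl⟩
    simpa using h
  · rintro ⟨h1, h2⟩
    refine ⟨p.1, p.2 - N, h2, ?_⟩
    ext
    · rfl
    · simp; omega

theorem measurableSet_shift {N : ℕ} {B : Set (X × ℕ)} (hm : MeasurableSet B) :
    MeasurableSet (shift N B) := by
  have h : shift N B = {p : X × ℕ | N ≤ p.2} ∩ (fun p : X × ℕ => (p.1, p.2 - N)) ⁻¹' B := by
    ext p
    exact mem_shift
  rw [h]
  refine (measurable_snd (measurableSet_Ici (a := N))).inter ?_
  exact (measurable_fst.prodMk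
    ((measurable_from_top (f := fun n : ℕ => n - N)).comp measurable_snd)) hm

theorem Equidec.shift' {B : Set (X × ℕ)} (hm : MeasurableSet B) {M : ℕ}
    (hM : ∀ p ∈ B, p.2 < M) (N : ℕ) : Equidec Γ B (shift N B) := by
  refine Equidec.intro (ι := Fin M) (fun i => B ∩ {p | p.2 = i}) (fun _ => 1) (fun i => i)
    (fun i => i + N) (fun i => hm.inter (measurable_snd (measurableSet_singleton _)))
    ?_ ?_ (fun i p hp => hp.2) ?_ ?_
  · intro a b hab
    rw [Set.disjoint_left]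
    rintro p ⟨_, h1⟩ ⟨_, h2⟩
    change p.2 = _ at h1 h2
    exact hab (Fin.ext (h1.symm.trans h2))
  · intro a b hab
    rw [Set.disjoint_left]
    rintro q ⟨p, ⟨_, h1⟩, rfl⟩ ⟨p', ⟨_, h2⟩, h3⟩
    have := (Prod.ext_iff.1 h3).2
    simp only at this
    exact hab (Fin.ext (by omega))
  · ext p
    constructor
    · intro hp
      exact Set.mem_iUnion.2 ⟨⟨p.2, hM p hp⟩, hp, rfl⟩
    · intro hp
      obtain ⟨i, hi, _⟩ := Set.mem_iUnion.1 hp
      exact hi
  · ext q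
    rw [mem_shift]
    constructor
    · rintro ⟨h1, h2⟩
      refine Set.mem_iUnion.2 ⟨⟨q.2 - N, hM _ h2⟩, (q.1, q.2 - N), ⟨h2, rfl⟩, ?_⟩
      ext
      · simp
      · simp; omega
    · intro hq
      obtain ⟨i, p, ⟨hp, hp2⟩, rfl⟩ := Set.mem_iUnion.1 hq
      change p.2 = _ at hp2
      refine ⟨by simp, ?_⟩
      simp only [one_smul, Nat.add_sub_cancel]
      rw [← hp2]
      exact hp

theorem Equidec.refl {B : Set (X × ℕ)} (hm : MeasurableSet B) {M : ℕ}
    (hM : ∀ p ∈ B, p.2 < M) : Equidec Γ B B := by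
  have h : Equidec Γ B (shift 0 B) := Equidec.shift' hm hM 0
  have : shift 0 B = B := by
    ext p
    rw [mem_shift]
    simp
  rwa [this] at h

theorem lt_height {A : Set (X × ℕ)} (h : ∃ N, ∀ p ∈ A, p.2 < N) :
    ∀ p ∈ A, p.2 < height A := by
  have : height A ∈ {N | ∀ p ∈ A, p.2 < N} := Nat.sInf_mem h
  exact this

end Pool.Agent.H71.PP
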