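import Pool.Agent.H71.PP.TypeLemmas

set_option autoImplicit false

/-!
# The type semigroup
-/

namespace Pool.Agent.H71.PP

section

variable (Γ : Type*) (X : Type*) [Group Γ] [MulAction Γ X] [MeasurableSpace X]
  [MeasurableConstSMul Γ X]

/-- Equidecomposability, as an equivalence relation on bounded Borel sets. -/
def equidecSetoid : Setoid (BSet X) where
  r A B := Equidec Γ A.1 B.1
  iseqv := ⟨fun A => Equidec.refl A.2.1 (lt_height A.2.2), fun h => h.symm,
    fun h h' => h.trans h'⟩

/-- The type semigroup. -/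
def TypeSemigroup : Type _ := Quotient (equidecSetoid Γ X)

end

variable {Γ : Type*} {X : Type*} [Group Γ] [MulAction Γ X] [MeasurableSpace X]
  [MeasurableConstSMul Γ X]

/-- The class of a bounded Borel set. -/
def cls (Γ : Type*) {X : Type*} [Group Γ] [MulAction Γ X] [MeasurableSpace X]
    [MeasurableConstSMul Γ X] (A : BSet X) : TypeSemigroup Γ X :=
  Quotient.mk (equidecSetoid Γ X) A

/-- The empty set. -/
def BSet.empty : BSet X := ⟨∅, MeasurableSet.empty, 0, fun p hp => absurd hp (Set.notMem_empty p)⟩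

/-- `A` together with a copy of `B` raised above all levels of `A`. -/
noncomputable def BSet.add (A B : BSet X) : BSet X :=
  ⟨A.1 ∪ shift (height A.1) B.1, A.2.1.union (measurableSet_shift B.2.1),
    height A.1 + height B.1, by
      rintro p (hp | hp)
      · exact Nat.lt_add_right _ (lt_height A.2.2 p hp)
      · obtain ⟨h1, h2⟩ := mem_shift.1 hp
        have := lt_height B.2.2 _ h2
        simp only at this
        omega⟩

theorem disj_shift (A : BSet X) (B : Set (X × ℕ)) {N : ℕ} (hN : height A.1 ≤ N) :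
    Disjoint A.1 (shift N B) := by
  rw [Set.disjoint_left]
  intro p hp hp2
  have h1 := lt_height A.2.2 p hp
  have h2 := (mem_shift.1 hp2).1
  omega

theorem add_congr {A A' B B' : BSet X} (h : Equidec Γ A.1 A'.1) (h' : Equidec Γ B.1 B'.1) :
    Equidec Γ (BSet.add A B).1 (BSet.add A' B').1 := by
  refine h.union ?_ (disj_shift A _ le_rfl) (disj_shift A' _ le_rfl)
  exact ((Equidec.shift' B.2.1 (lt_height B.2.2) _).symm.trans h').trans
    (Equidec.shift' B'.2.1 (lt_height B'.2.2) _)

instance : Zero (TypeSemigroup Γ X) := ⟨cls Γ BSet.empty⟩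

noncomputable instance : Add (TypeSemigroup Γ X) :=
  ⟨Quotient.map₂ BSet.add (fun _ _ h _ _ h' => add_congr h h')⟩

theorem cls_add (A B : BSet X) : cls Γ A + cls Γ B = cls Γ (BSet.add A B) := rfl

theorem cls_eq {A B : BSet X} : cls Γ A = cls Γ B ↔ Equidec Γ A.1 B.1 := by
  unfold cls
  exact Quotient.eq (r := equidecSetoid Γ X)

/-- union of bounded Borel sets -/
def BSet.union (A B : BSet X) : BSet X :=
  ⟨A.1 ∪ B.1, A.2.1.union B.2.1, height A.1 + height B.1, by
      rintro p (hp | hp)
      · exact Nat.lt_add_right _ (lt_height A.2.2 p hp)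
      · exact Nat.lt_add_left _ (lt_height B.2.2 p hp)⟩

theorem cls_add_of_disjoint {A B : BSet X} (hd : Disjoint A.1 B.1) :
    cls Γ A + cls Γ B = cls Γ (BSet.union A B) := by
  rw [cls_add, cls_eq]
  exact (Equidec.refl A.2.1 (lt_height A.2.2)).union
    (Equidec.shift' B.2.1 (lt_height B.2.2) _).symm (disj_shift A _ le_rfl) hd

/-- shifted set -/
def BSet.shift (N : ℕ) (B : BSet X) : BSet X :=
  ⟨PP.shift N B.1, measurableSet_shift B.2.1, height B.1 + N, by
    intro p hp
    obtain ⟨h1, h2⟩ := mem_shift.1 hp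
    have := lt_height B.2.2 _ h2
    simp only at this
    omega⟩

theorem cls_shift (N : ℕ) (B : BSet X) : cls Γ (BSet.shift N B) = cls Γ B := by
  rw [cls_eq]
  exact (Equidec.shift' B.2.1 (lt_height B.2.2) _).symm

theorem BSet.union_comm (A B : BSet X) : BSet.union A B = BSet.union B A :=
  Subtype.ext (Set.union_comm _ _)

theorem exists_disj (A B : BSet X) : ∃ B' : BSet X, cls Γ B' = cls Γ B ∧ Disjoint A.1 B'.1 :=
  ⟨BSet.shift (height A.1) B, cls_shift _ _, disj_shift A _ le_rfl⟩

theorem type_add_comm (a b : TypeSemigroup Γ X) : a + b = b + a := by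
  obtain ⟨A, rfl⟩ : ∃ A, cls Γ A = a := Quotient.exists_rep a
  obtain ⟨B, rfl⟩ : ∃ B, cls Γ B = b := Quotient.exists_rep b
  obtain ⟨B', hB, hd⟩ := exists_disj (Γ := Γ) A B
  rw [← hB, cls_add_of_disjoint hd, cls_add_of_disjoint hd.symm, BSet.union_comm]

theorem type_add_assoc (a b c : TypeSemigroup Γ X) : a + b + c = a + (b + c) := by
  obtain ⟨A, rfl⟩ : ∃ A, cls Γ A = a := Quotient.exists_rep a
  obtain ⟨B, rfl⟩ : ∃ B, cls Γ B = b := Quotient.exists_rep b
  obtain ⟨C, rfl⟩ : ∃ C, cls Γ C = c := Quotient.exists_rep c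
  obtain ⟨B', hB, hd⟩ := exists_disj (Γ := Γ) A B
  obtain ⟨C', hC, hd2⟩ := exists_disj (Γ := Γ) (BSet.union A B') C
  have hd3 : Disjoint (A.1 ∪ B'.1) C'.1 := hd2
  rw [Set.disjoint_union_left] at hd3
  have hd4 : Disjoint A.1 (BSet.union B' C').1 := by
    change Disjoint A.1 (B'.1 ∪ C'.1)
    rw [Set.disjoint_union_right]
    exact ⟨hd, hd3.1⟩
  rw [← hB, ← hC, cls_add_of_disjoint hd, cls_add_of_disjoint hd2, cls_add_of_disjoint hd3.2,
    cls_add_of_disjoint hd4]
  congr 1
  exact Subtype.ext (Set.union_assoc _ _ _)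

theorem type_add_zero (a : TypeSemigroup Γ X) : a + 0 = a := by
  obtain ⟨A, rfl⟩ : ∃ A, cls Γ A = a := Quotient.exists_rep a
  have h : (0 : TypeSemigroup Γ X) = cls Γ BSet.empty := rfl
  rw [h, cls_add_of_disjoint (Set.disjoint_empty _)]
  congr 1
  exact Subtype.ext (Set.union_empty _)

noncomputable instance : AddCommMonoid (TypeSemigroup Γ X) where
  add_assoc := type_add_assoc
  zero_add a := by rw [type_add_comm, type_add_zero]
  add_zero := type_add_zero
  add_comm := type_add_comm
  nsmul := nsmulRec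

/-- The algebraic preorder. -/
instance : LE (TypeSemigroup Γ X) := ⟨fun a b => ∃ c, b = a + c⟩

end Pool.Agent.H71.PP
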